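import Mathlib

/-!
# Simultaneous renorming: monotone basis and norm-one projection

In the Banach space `ℓ² × ℓ⁴` the vectors `x (2k) = (e k, f k)`, `x (2k+1) = (e k, 2 f k)` form a
Schauder basis and `E = ℓ² × 0` is complemented, but no equivalent norm makes the basis monotone
and some projection onto `E` contractive at the same time.
-/

open Filter Topology Finset
open scoped ENNReal

set_option autoImplicit false

namespace Pool.Agent.Results.MP_47003a_an.NoSimultaneousRenorming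

section defs

variable {𝕜 : Type} [RCLike 𝕜] {B : Type} [NormedAddCommGroup B] [NormedSpace 𝕜 B]

/-- `∑ aᵢ xᵢ` converges (in norm, as a series) to `v`. -/
def Expands (x : ℕ → B) (a : ℕ → 𝕜) (v : B) : Prop :=
  Tendsto (fun n => ∑ i ∈ range n, a i • x i) atTop (𝓝 v)

/-- `x` is a Schauder basis. -/
def IsSchauderBasis (𝕜 : Type) [RCLike 𝕜] {B : Type} [NormedAddCommGroup B] [NormedSpace 𝕜 B]
    (x : ℕ → B) : Prop :=
  ∀ v : B, ∃! a : ℕ → 𝕜, Expands x a v

/-- The seminorm `N` is a norm equivalent to the given one. -/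
def IsEquivNorm (N : Seminorm 𝕜 B) : Prop :=
  ∃ c C : ℝ, 0 < c ∧ ∀ v, c * ‖v‖ ≤ N v ∧ N v ≤ C * ‖v‖

/-- The basis `x` is monotone for `N`: all partial sum operators are contractive. -/
def MonotoneFor (N : Seminorm 𝕜 B) (x : ℕ → B) : Prop :=
  ∀ (v : B) (a : ℕ → 𝕜), Expands x a v → ∀ n, N (∑ i ∈ range n, a i • x i) ≤ N v

/-- The map `P` is a projection onto `E`. -/
def IsProjOnto (P : B → B) (E : Submodule 𝕜 B) : Prop :=
  (∀ v, P v ∈ E) ∧ ∀ v ∈ E, P v = v

end defs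

variable (𝕜 : Type) [RCLike 𝕜]

/-- The scalar sequence space `ℓ^p`. -/
abbrev L (p : ℝ≥0∞) := lp (fun _ : ℕ => 𝕜) p

/-- The Banach space `ℓ² × ℓ⁴`. -/
abbrev BB := L 𝕜 2 × L 𝕜 4

variable {𝕜}

/-- unit vectors -/
noncomputable def e (p : ℝ≥0∞) (k : ℕ) : L 𝕜 p := lp.single p k (1 : 𝕜)

noncomputable def xx (n : ℕ) : BB 𝕜 :=
  if n % 2 = 0 then (e 2 (n / 2), e 4 (n / 2)) else (e 2 (n / 2), (2 : 𝕜) • e 4 (n / 2))

noncomputable def cc (v : BB 𝕜) (n : ℕ) : 𝕜 :=
  if n % 2 = 0 then 2 * v.1 (n / 2) - v.2 (n / 2) else v.2 (n / 2) - v.1 (n / 2)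

theorem xx_even (k : ℕ) : (xx (2 * k) : BB 𝕜) = (e 2 k, e 4 k) := by
  simp [xx]

theorem xx_odd (k : ℕ) : (xx (2 * k + 1) : BB 𝕜) = (e 2 k, (2 : 𝕜) • e 4 k) := by
  have h1 : (2 * k + 1) % 2 = 1 := by omega
  have h2 : (2 * k + 1) / 2 = k := by omega
  simp [xx, h1, h2]

theorem cc_even (v : BB 𝕜) (k : ℕ) : cc v (2 * k) = 2 * v.1 k - v.2 k := by
  simp [cc]

theorem cc_odd (v : BB 𝕜) (k : ℕ) : cc v (2 * k + 1) = v.2 k - v.1 k := by
  have h1 : (2 * k + 1) % 2 = 1 := by omega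
  have h2 : (2 * k + 1) / 2 = k := by omega
  simp [cc, h1, h2]

theorem sum_double {M : Type} [AddCommMonoid M] (g : ℕ → M) (K : ℕ) :
    ∑ i ∈ range (2 * K), g i = ∑ k ∈ range K, (g (2 * k) + g (2 * k + 1)) := by
  induction K with
  | zero => simp
  | succ K ih =>
    rw [show 2 * (K + 1) = 2 * K + 1 + 1 by ring, sum_range_succ, sum_range_succ,
      sum_range_succ, ih, add_assoc]

theorem single_tendsto {p : ℝ≥0∞} [Fact (1 ≤ p)] (hp : p ≠ ⊤) (u : L 𝕜 p) :
    Tendsto (fun K => ∑ k ∈ range K, (u k) • (e p k : L 𝕜 p)) atTop (𝓝 u) := by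
  have h := (lp.hasSum_single hp u).tendsto_sum_nat
  refine h.congr (fun K => ?_)
  refine sum_congr rfl (fun k _ => ?_)
  rw [e, ← lp.single_smul]
  simp

instance : Fact ((1 : ℝ≥0∞) ≤ 4) := ⟨by norm_num⟩

theorem partial_even (a : ℕ → 𝕜) (K : ℕ) :
    ∑ i ∈ range (2 * K), a i • (xx i : BB 𝕜) =
      (∑ k ∈ range K, (a (2 * k) + a (2 * k + 1)) • e 2 k,
        ∑ k ∈ range K, (a (2 * k) + 2 * a (2 * k + 1)) • e 4 k) := by
  rw [sum_double]
  ext1
  · rw [Prod.fst_sum]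
    refine sum_congr rfl (fun k _ => ?_)
    rw [xx_even, xx_odd]
    simp [add_smul]
  · rw [Prod.snd_sum]
    refine sum_congr rfl (fun k _ => ?_)
    rw [xx_even, xx_odd]
    simp only [Prod.snd_add, Prod.smul_snd, smul_smul, add_smul]
    rw [mul_comm (a (2 * k + 1)) 2]

theorem norm_e {p : ℝ≥0∞} [Fact (1 ≤ p)] (k : ℕ) : ‖(e p k : L 𝕜 p)‖ = 1 := by
  have h0 : 0 < p := zero_lt_one.trans_le (Fact.out : 1 ≤ p)
  rw [e, lp.norm_single h0]
  simp

theorem coord_tendsto {p : ℝ≥0∞} [Fact (1 ≤ p)] (hp : p ≠ ⊤) (u : L 𝕜 p) :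
    Tendsto (fun k => u k) atTop (𝓝 0) := by
  have h := single_tendsto hp u
  have h2 := (h.comp (tendsto_add_atTop_nat 1)).sub h
  rw [sub_self] at h2
  have h3 : Tendsto (fun k => ‖(u k) • (e p k : L 𝕜 p)‖) atTop (𝓝 0) := by
    have := h2.norm
    rw [norm_zero] at this
    refine this.congr (fun k => ?_)
    simp [sum_range_succ]
  rw [tendsto_zero_iff_norm_tendsto_zero]
  refine h3.congr (fun k => ?_)
  rw [norm_smul, norm_e, mul_one]

theorem even_tendsto (v : BB 𝕜) :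
    Tendsto (fun K => ∑ i ∈ range (2 * K), cc v i • (xx i : BB 𝕜)) atTop (𝓝 v) := by
  have h1 := single_tendsto (𝕜 := 𝕜) (by norm_num : (2 : ℝ≥0∞) ≠ ⊤) v.1
  have h2 := single_tendsto (𝕜 := 𝕜) (by norm_num : (4 : ℝ≥0∞) ≠ ⊤) v.2
  have h3 := h1.prodMk_nhds h2
  refine h3.congr (fun K => ?_)
  rw [partial_even]
  have a1 : ∑ k ∈ range K, (v.1 k) • (e 2 k : L 𝕜 2) =
      ∑ k ∈ range K, (cc v (2 * k) + cc v (2 * k + 1)) • (e 2 k : L 𝕜 2) := by
    refine sum_congr rfl (fun k _ => ?_)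
    rw [cc_even, cc_odd]
    congr 1
    ring
  have a2 : ∑ k ∈ range K, (v.2 k) • (e 4 k : L 𝕜 4) =
      ∑ k ∈ range K, (cc v (2 * k) + 2 * cc v (2 * k + 1)) • (e 4 k : L 𝕜 4) := by
    refine sum_congr rfl (fun k _ => ?_)
    rw [cc_even, cc_odd]
    congr 1
    ring
  rw [a1, a2]

theorem expands_cc (v : BB 𝕜) : Expands (xx : ℕ → BB 𝕜) (cc v) v := by
  have h1 := even_tendsto v
  have hdiv : Tendsto (fun n : ℕ => n / 2) atTop atTop :=
    Nat.tendsto_div_const_atTop (by norm_num)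
  have h2 := h1.comp hdiv
  have h3 : Tendsto (fun k : ℕ => ‖cc v (2 * k)‖) atTop (𝓝 0) := by
    have ha := coord_tendsto (𝕜 := 𝕜) (by norm_num : (2 : ℝ≥0∞) ≠ ⊤) v.1
    have hb := coord_tendsto (𝕜 := 𝕜) (by norm_num : (4 : ℝ≥0∞) ≠ ⊤) v.2
    have hc := ((ha.const_mul 2).sub hb).norm
    rw [mul_zero, sub_zero, norm_zero] at hc
    refine hc.congr (fun k => ?_)
    rw [cc_even]
  have h4 := h3.comp hdiv
  have h5 : Tendsto (fun n : ℕ => (∑ i ∈ range n, cc v i • (xx i : BB 𝕜)) -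
      ∑ i ∈ range (2 * (n / 2)), cc v i • (xx i : BB 𝕜)) atTop (𝓝 0) := by
    refine squeeze_zero_norm (fun n => ?_) h4
    rcases Nat.even_or_odd' n with ⟨k, hk | hk⟩
    · have : n / 2 = k := by omega
      rw [this, hk, sub_self, norm_zero]
      exact norm_nonneg _
    · have : n / 2 = k := by omega
      simp only [Function.comp_apply]
      rw [this, hk, sum_range_succ, add_sub_cancel_left, norm_smul]
      have hx : ‖(xx (2 * k) : BB 𝕜)‖ = 1 := by
        rw [xx_even, Prod.norm_def]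
        simp only [norm_e, max_self]
      rw [hx, mul_one]
  have h6 := h5.add h2
  rw [zero_add] at h6
  refine h6.congr (fun n => ?_)
  simp [Function.comp_apply]

theorem isSchauderBasis_xx : IsSchauderBasis 𝕜 (xx : ℕ → BB 𝕜) := by
  intro v
  refine ⟨cc v, expands_cc v, ?_⟩
  intro a ha
  have hev : Tendsto (fun K => ∑ i ∈ range (2 * K), a i • (xx i : BB 𝕜)) atTop (𝓝 v) :=
    ha.comp (tendsto_id.const_mul_atTop' (by norm_num))
  have key : ∀ k, a (2 * k) + a (2 * k + 1) = v.1 k ∧ a (2 * k) + 2 * a (2 * k + 1) = v.2 k := by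
    intro k
    have e1 : Tendsto (fun K => ((∑ i ∈ range (2 * K), a i • (xx i : BB 𝕜)).1 : L 𝕜 2) k) atTop
        (𝓝 (v.1 k)) := by
      have hc : Continuous (fun w : BB 𝕜 => (w.1 : L 𝕜 2) k) := by
        have := (lp.evalCLM 𝕜 (fun _ : ℕ => 𝕜) 2 k).continuous
        exact this.comp continuous_fst
      exact (hc.tendsto v).comp hev
    have e2 : Tendsto (fun K => ((∑ i ∈ range (2 * K), a i • (xx i : BB 𝕜)).2 : L 𝕜 4) k) atTop
        (𝓝 (v.2 k)) := by
      have hc : Continuous (fun w : BB 𝕜 => (w.2 : L 𝕜 4) k) := by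
        have := (lp.evalCLM 𝕜 (fun _ : ℕ => 𝕜) 4 k).continuous
        exact this.comp continuous_snd
      exact (hc.tendsto v).comp hev
    have ev : ∀ (p : ℝ≥0∞) (c : ℕ → 𝕜) (K : ℕ), k < K →
        (∑ j ∈ range K, c j • (e p j : L 𝕜 p)) k = c k := by
      intro p c K hK
      rw [lp.coeFn_sum, Finset.sum_apply, Finset.sum_eq_single k]
      · simp [e]
      · intro j _ hj
        simp [e, hj.symm]
      · intro h
        exact absurd (mem_range.2 hK) h
    constructor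
    · refine tendsto_nhds_unique (tendsto_const_nhds.congr' ?_) e1
      filter_upwards [eventually_gt_atTop k] with K hK
      rw [partial_even]
      exact (ev 2 (fun j => a (2 * j) + a (2 * j + 1)) K hK).symm
    · refine tendsto_nhds_unique (tendsto_const_nhds.congr' ?_) e2
      filter_upwards [eventually_gt_atTop k] with K hK
      rw [partial_even]
      exact (ev 4 (fun j => a (2 * j) + 2 * a (2 * j + 1)) K hK).symm
  funext n
  rcases Nat.even_or_odd' n with ⟨k, hk | hk⟩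
  · obtain ⟨h1, h2⟩ := key k
    rw [hk, cc_even, ← h1, ← h2]
    ring
  · obtain ⟨h1, h2⟩ := key k
    rw [hk, cc_odd, ← h1, ← h2]
    ring

/-- good signs -/
theorem exists_signs {H : Type} [NormedAddCommGroup H] [InnerProductSpace 𝕜 H] (y : ℕ → H) (M : ℕ) :
    ∃ θ : ℕ → 𝕜, (∀ k, ‖θ k‖ = 1) ∧
      ∑ k ∈ range M, ‖y k‖ ^ 2 ≤ ‖∑ k ∈ range M, θ k • y k‖ ^ 2 := by
  induction M with
  | zero => exact ⟨fun _ => 1, by simp, by simp⟩
  | succ M ih =>
    obtain ⟨θ, h1, h2⟩ := ih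
    set S := ∑ k ∈ range M, θ k • y k with hS
    have hpar := parallelogram_law_with_norm 𝕜 S (y M)
    have hsum : ∀ c : 𝕜, ∑ k ∈ range (M + 1), (Function.update θ M c) k • y k = S + c • y M := by
      intro c
      rw [sum_range_succ, Function.update_self, hS]
      congr 1
      refine sum_congr rfl (fun k hk => ?_)
      rw [Function.update_of_ne (by have := mem_range.1 hk; omega)]
    have hnorm : ∀ c : 𝕜, ‖c‖ = 1 → ∀ k, ‖(Function.update θ M c) k‖ = 1 := by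
      intro c hc k
      by_cases hk : k = M
      · rw [hk, Function.update_self, hc]
      · rw [Function.update_of_ne hk, h1]
    rw [sum_range_succ]
    by_cases hcase : ‖S‖ ^ 2 + ‖y M‖ ^ 2 ≤ ‖S + y M‖ ^ 2
    · refine ⟨Function.update θ M 1, hnorm 1 (by simp), ?_⟩
      rw [hsum, one_smul]
      linarith
    · refine ⟨Function.update θ M (-1), hnorm (-1) (by simp), ?_⟩
      rw [hsum, neg_one_smul, ← sub_eq_add_neg]
      push Not at hcase
      nlinarith

theorem norm_sum_e (θ : ℕ → 𝕜) (h : ∀ k, ‖θ k‖ = 1) (M : ℕ) :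
    ‖∑ k ∈ range M, θ k • (e 4 k : L 𝕜 4)‖ ^ 4 = M := by
  have h4 : (4 : ℝ≥0∞).toReal = 4 := by norm_num
  have := lp.norm_sum_single (E := fun _ : ℕ => 𝕜) (p := 4) (by rw [h4]; norm_num) θ (range M)
  rw [h4] at this
  have e1 : ∑ k ∈ range M, θ k • (e 4 k : L 𝕜 4) = ∑ i ∈ range M, lp.single 4 i (θ i) := by
    refine sum_congr rfl (fun k _ => ?_)
    rw [e, ← lp.single_smul]
    simp
  rw [e1]
  have e2 : ‖∑ i ∈ range M, lp.single (E := fun _ : ℕ => 𝕜) 4 i (θ i)‖ ^ (4 : ℕ) =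
      ‖∑ i ∈ range M, lp.single (E := fun _ : ℕ => 𝕜) 4 i (θ i)‖ ^ (4 : ℝ) := by
    rw [← Real.rpow_natCast]
    norm_num
  rw [e2, this]
  simp [h]

variable (𝕜) in
/-- The subspace `ℓ² × 0`. -/
noncomputable def EE : Submodule 𝕜 (BB 𝕜) := LinearMap.ker (LinearMap.snd 𝕜 (L 𝕜 2) (L 𝕜 4))

theorem mem_EE (v : BB 𝕜) : v ∈ EE 𝕜 ↔ v.2 = 0 := by
  simp [EE]

/-- A bounded projection onto `E` is small on some unit vector `(0, f k)`. -/
theorem exists_small (P : BB 𝕜 →ₗ[𝕜] BB 𝕜) (K : ℝ) (hK : ∀ v, ‖P v‖ ≤ K * ‖v‖) (ε : ℝ)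
    (hε : 0 < ε) : ∃ k, ‖(P (0, e 4 k)).1‖ < ε := by
  by_contra hcon
  push Not at hcon
  have hK0 : 0 ≤ K := by
    have := hK (xx 0)
    have hx : ‖(xx 0 : BB 𝕜)‖ = 1 := by
      have := xx_even (𝕜 := 𝕜) 0
      rw [mul_zero] at this
      rw [this, Prod.norm_def]
      simp only [norm_e, max_self]
    rw [hx, mul_one] at this
    exact (norm_nonneg _).trans this
  have key : ∀ M : ℕ, 1 ≤ M → (M : ℝ) * ε ^ 4 ≤ K ^ 4 := by
    intro M hM
    obtain ⟨θ, h1, h2⟩ := exists_signs (𝕜 := 𝕜) (fun k => (P (0, e 4 k)).1) M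
    have hlow : (M : ℝ) * ε ^ 2 ≤ ∑ k ∈ range M, ‖(P (0, e 4 k)).1‖ ^ 2 := by
      have : ∑ k ∈ range M, ε ^ 2 ≤ ∑ k ∈ range M, ‖(P (0, e 4 k)).1‖ ^ 2 :=
        sum_le_sum (fun k _ => by
          have := hcon k
          gcongr)
      simpa using this
    have hlin : ∑ k ∈ range M, θ k • (P (0, e 4 k)).1 =
        (P (0, ∑ k ∈ range M, θ k • e 4 k)).1 := by
      have : ((0, ∑ k ∈ range M, θ k • e 4 k) : BB 𝕜) =
          ∑ k ∈ range M, θ k • ((0, e 4 k) : BB 𝕜) := by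
        ext1
        · simp [Prod.fst_sum]
        · simp [Prod.snd_sum]
      rw [this, map_sum, Prod.fst_sum]
      refine sum_congr rfl (fun k _ => ?_)
      rw [map_smul]
      rfl
    have hup : ‖∑ k ∈ range M, θ k • (P (0, e 4 k)).1‖ ≤
        K * ‖∑ k ∈ range M, θ k • (e 4 k : L 𝕜 4)‖ := by
      rw [hlin]
      refine (norm_fst_le _).trans ((hK _).trans ?_)
      rw [Prod.norm_def]
      simp
    have h4 := norm_sum_e θ h1 M
    set A := ‖∑ k ∈ range M, θ k • (e 4 k : L 𝕜 4)‖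
    set D := ‖∑ k ∈ range M, θ k • (P (0, e 4 k)).1‖
    have hD : D ^ 4 ≤ K ^ 4 * M := by
      calc D ^ 4 ≤ (K * A) ^ 4 := by gcongr
        _ = K ^ 4 * M := by rw [mul_pow, h4]
    have hM2 : ((M : ℝ) * ε ^ 2) ^ 2 ≤ D ^ 4 := by
      have : (M : ℝ) * ε ^ 2 ≤ D ^ 2 := hlow.trans h2
      calc ((M : ℝ) * ε ^ 2) ^ 2 ≤ (D ^ 2) ^ 2 := by gcongr
        _ = D ^ 4 := by ring
    have hMpos : (0 : ℝ) < M := by exact_mod_cast hM
    have : (M : ℝ) * ((M : ℝ) * ε ^ 4) ≤ M * K ^ 4 := by nlinarith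
    exact le_of_mul_le_mul_left this hMpos
  have hε4 : 0 < ε ^ 4 := by positivity
  obtain ⟨M, hM⟩ := exists_nat_gt (K ^ 4 / ε ^ 4)
  have h1 := key (M + 1) (by omega)
  rw [div_lt_iff₀ hε4] at hM
  push_cast at h1
  nlinarith

theorem cc_add (v w : BB 𝕜) (n : ℕ) : cc (v + w) n = cc v n + cc w n := by
  unfold cc
  split_ifs
  · simp only [Prod.fst_add, Prod.snd_add, lp.coeFn_add, Pi.add_apply]
    ring
  · simp only [Prod.fst_add, Prod.snd_add, lp.coeFn_add, Pi.add_apply]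
    ring

theorem partial_e (k : ℕ) :
    ∑ i ∈ range (2 * k + 1), cc ((e 2 k, 0) : BB 𝕜) i • (xx i : BB 𝕜) = (2 : 𝕜) • xx (2 * k) := by
  rw [sum_range_succ, sum_eq_zero, zero_add]
  · congr 1
    rw [cc_even]
    simp [e]
  · intro i hi
    have hi' : i / 2 ≠ k := by
      have := mem_range.1 hi
      omega
    have : cc ((e 2 k, 0) : BB 𝕜) i = 0 := by
      unfold cc
      split_ifs <;> simp [e, hi']
    rw [this, zero_smul]

/-- **Main theorem.** There are a Banach space with a Schauder basis and a complemented subspace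
such that no equivalent norm makes the basis monotone and some linear projection onto the subspace
contractive at the same time. -/
theorem result (𝕜 : Type) [RCLike 𝕜] :
    ∃ (B : Type) (_ : NormedAddCommGroup B) (_ : NormedSpace 𝕜 B) (_ : CompleteSpace B)
      (x : ℕ → B) (E : Submodule 𝕜 B),
      IsSchauderBasis 𝕜 x ∧ (∃ Q : B →L[𝕜] B, IsProjOnto Q E) ∧
      ∀ N : Seminorm 𝕜 B, IsEquivNorm N → MonotoneFor N x →
        ∀ P : B →ₗ[𝕜] B, IsProjOnto P E → ¬ ∀ v, N (P v) ≤ N v := by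
  refine ⟨BB 𝕜, inferInstance, inferInstance, inferInstance, xx, EE 𝕜, isSchauderBasis_xx,
    ⟨(ContinuousLinearMap.inl 𝕜 (L 𝕜 2) (L 𝕜 4)).comp
      (ContinuousLinearMap.fst 𝕜 (L 𝕜 2) (L 𝕜 4)), ?_, ?_⟩, ?_⟩
  · intro v
    rw [mem_EE]
    simp
  · intro v hv
    rw [mem_EE] at hv
    ext1
    · simp
    · simp [hv]
  · intro N hN hmono P hP hcontr
    obtain ⟨c, C, hc, hcC⟩ := hN
    have hbound : ∀ v, ‖P v‖ ≤ (C / c) * ‖v‖ := by
      intro v
      have h1 := (hcC (P v)).1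
      have h2 := hcontr v
      have h3 := (hcC v).2
      rw [div_mul_eq_mul_div, le_div_iff₀ hc]
      linarith
    have hx1 : ∀ k, ‖(xx (2 * k) : BB 𝕜)‖ = 1 := by
      intro k
      rw [xx_even, Prod.norm_def]
      simp only [norm_e, max_self]
    have hCpos : 0 < C := by
      have h1 := (hcC (xx (2 * 0))).1
      have h2 := (hcC (xx (2 * 0))).2
      rw [hx1] at h1 h2
      linarith
    obtain ⟨k, hk⟩ := exists_small P (C / c) hbound (c / (2 * C)) (by positivity)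
    set y := (P (0, e 4 k)).1 with hy
    have hPf : P (0, e 4 k) = (y, 0) := by
      ext1
      · rfl
      · exact (mem_EE _).1 (hP.1 _)
    have hPe : P (e 2 k, 0) = (e 2 k, 0) := hP.2 _ ((mem_EE _).2 rfl)
    have hPx : P (xx (2 * k)) = (e 2 k, 0) + (y, 0) := by
      rw [← hPe, ← hPf, ← map_add, xx_even]
      congr 1
      ext1 <;> simp
    set v : BB 𝕜 := (e 2 k, 0) + (y, 0) with hv
    have hSv : N (∑ i ∈ range (2 * k + 1), cc v i • (xx i : BB 𝕜)) ≤ N (xx (2 * k)) := by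
      refine (hmono v (cc v) (expands_cc v) _).trans ?_
      rw [← hPx]
      exact hcontr _
    have hSy : N (∑ i ∈ range (2 * k + 1), cc ((y, 0) : BB 𝕜) i • (xx i : BB 𝕜)) ≤ C * ‖y‖ := by
      refine (hmono (y, 0) (cc (y, 0)) (expands_cc _) _).trans ((hcC _).2.trans ?_)
      rw [Prod.norm_def]
      simp
    have hsplit : (2 : 𝕜) • xx (2 * k) = ∑ i ∈ range (2 * k + 1), cc v i • (xx i : BB 𝕜) -
        ∑ i ∈ range (2 * k + 1), cc ((y, 0) : BB 𝕜) i • (xx i : BB 𝕜) := by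
      rw [eq_sub_iff_add_eq, ← partial_e, ← sum_add_distrib]
      refine sum_congr rfl (fun i _ => ?_)
      rw [hv, cc_add, add_smul]
    have h2N : 2 * N (xx (2 * k)) ≤ N (xx (2 * k)) + C * ‖y‖ := by
      have : N ((2 : 𝕜) • xx (2 * k)) = 2 * N (xx (2 * k)) := by
        rw [map_smul_eq_mul]
        simp
      rw [← this, hsplit]
      exact (map_sub_le_add N _ _).trans (add_le_add hSv hSy)
    have hlow := (hcC (xx (2 * k))).1
    rw [hx1, mul_one] at hlow
    have : C * ‖y‖ < c := by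
      have := mul_lt_mul_of_pos_left hk hCpos
      have e1 : C * (c / (2 * C)) = c / 2 := by
        field_simp
      linarith
    linarith

end Pool.Agent.Results.MP_47003a_an.NoSimultaneousRenorming
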